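import Mathlib

/-!
# Two-set sumsets covering all pairwise sums of basis vectors

If `B₀ + B₁ ⊆ ℚ^n` contains all `e_i + e_j` then `|B₀| + |B₁| ≥ 2n`.
-/

set_option autoImplicit false

open Finset

namespace Pool.Agent.Results.MP_267066_co.TwoNBound

/-- The set of the distances (2-adic norms) between distinct points of `W`. -/
def dists (W : Finset ℚ) : Finset ℚ :=
  W.offDiag.image (fun q => padicNorm 2 (q.1 - q.2))

theorem mem_dists {W : Finset ℚ} {d : ℚ} :
    d ∈ dists W ↔ ∃ x ∈ W, ∃ y ∈ W, x ≠ y ∧ padicNorm 2 (x - y) = d := by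
  unfold dists
  rw [mem_image]
  constructor
  · rintro ⟨q, hq, rfl⟩
    rw [mem_offDiag] at hq
    exact ⟨q.1, hq.1, q.2, hq.2.1, hq.2.2, rfl⟩
  · rintro ⟨x, hx, y, hy, hxy, rfl⟩
    exact ⟨(x, y), by rw [mem_offDiag]; exact ⟨hx, hy, hxy⟩, rfl⟩

instance : Fact (Nat.Prime 2) := ⟨Nat.prime_two⟩

theorem isosceles (w x y : ℚ) (h : padicNorm 2 (w - y) < padicNorm 2 (w - x)) :
    padicNorm 2 (w - x) = padicNorm 2 (y - x) := by
  have h1 : w - x = (w - y) + (y - x) := by ring
  have h3 : padicNorm 2 (w - y) ≠ padicNorm 2 (y - x) := by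
    intro h2
    have := padicNorm.nonarchimedean (p := 2) (q := w - y) (r := y - x)
    rw [← h1, ← h2, max_self] at this
    exact absurd this (not_le.mpr h)
  have h4 := padicNorm.add_eq_max_of_ne (p := 2) h3
  rw [← h1] at h4
  rcases max_choice (padicNorm 2 (w - y)) (padicNorm 2 (y - x)) with h5 | h5
  · rw [h5] at h4
    rw [h4] at h
    exact absurd h (lt_irrefl _)
  · rw [h5] at h4
    exact h4

/-- An ultrametric space with `N` points has at most `N - 1` nonzero distances. -/
theorem card_dists (W : Finset ℚ) (hW : W.Nonempty) : (dists W).card + 1 ≤ W.card := by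
  induction W using Finset.induction_on with
  | empty => exact absurd hW (by simp)
  | insert w W hw ih =>
    rcases W.eq_empty_or_nonempty with rfl | hne
    · have : dists (insert w (∅ : Finset ℚ)) = ∅ := by
        unfold dists
        simp
      rw [this]
      simp
    · obtain ⟨x0, hx0, hmin⟩ := exists_min_image W (fun x => padicNorm 2 (w - x)) hne
      have hsub : dists (insert w W) ⊆ insert (padicNorm 2 (w - x0)) (dists W) := by
        have key : ∀ x ∈ W, padicNorm 2 (w - x) ∈ insert (padicNorm 2 (w - x0)) (dists W) := by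
          intro x hx
          rw [mem_insert]
          rcases eq_or_lt_of_le (hmin x hx) with h | h
          · left; exact h.symm
          · right
            have h2 := isosceles w x x0 h
            rw [mem_dists]
            refine ⟨x0, hx0, x, hx, ?_, h2.symm⟩
            rintro rfl
            exact absurd h (lt_irrefl _)
        intro d hd
        rw [mem_dists] at hd
        obtain ⟨x, hx, y, hy, hxy, rfl⟩ := hd
        rw [mem_insert] at hx hy
        rcases hx with rfl | hx
        · rcases hy with rfl | hy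
          · exact absurd rfl hxy
          · exact key y hy
        · rcases hy with rfl | hy
          · have : padicNorm 2 (x - y) = padicNorm 2 (y - x) := by
              rw [← padicNorm.neg, neg_sub]
            rw [this]
            exact key x hx
          · exact mem_insert_of_mem (mem_dists.mpr ⟨x, hx, y, hy, hxy, rfl⟩)
      have h1 := card_le_card hsub
      have h2 := card_insert_le (padicNorm 2 (w - x0)) (dists W)
      have h3 := ih hne
      rw [card_insert_of_notMem hw]
      omega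

/-- The linear functional `e_i ↦ 4 ^ (-i)`. -/
def func {n : ℕ} (x : Fin n → ℚ) : ℚ := ∑ i, x i * ((1 : ℚ) / 4 ^ (i : ℕ))

theorem func_add {n : ℕ} (x y : Fin n → ℚ) : func (x + y) = func x + func y := by
  unfold func
  rw [← sum_add_distrib]
  exact sum_congr rfl (fun i _ => by rw [Pi.add_apply]; ring)

theorem func_single {n : ℕ} (i : Fin n) : func (Pi.single i (1 : ℚ)) = 1 / 4 ^ (i : ℕ) := by
  unfold func
  rw [sum_eq_single i]
  · rw [Pi.single_eq_same, one_mul]
  · intro j _ hj
    rw [Pi.single_eq_of_ne hj, zero_mul]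
  · intro h
    exact absurd (mem_univ i) h

theorem norm_two : padicNorm 2 (2 : ℚ) = 1 / 2 := by
  have := padicNorm.padicNorm_p (p := 2) (by norm_num)
  rw [show ((2 : ℕ) : ℚ) = 2 by norm_num] at this
  rw [this]; norm_num

theorem norm_four_inv (k : ℕ) : padicNorm 2 ((1 : ℚ) / 4 ^ k) = 4 ^ k := by
  have h4 : padicNorm 2 (4 : ℚ) = 1 / 4 := by
    rw [show (4 : ℚ) = 2 * 2 by norm_num, padicNorm.mul, norm_two]; norm_num
  have h5 : ∀ k : ℕ, padicNorm 2 ((4 : ℚ) ^ k) = (1 / 4) ^ k := by
    intro k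
    induction k with
    | zero => simp
    | succ k ih => rw [pow_succ, padicNorm.mul, ih, h4, pow_succ]
  rw [padicNorm.div, h5, padicNorm.one]
  rw [one_div_pow, one_div_one_div]

theorem norm_five : padicNorm 2 (5 : ℚ) = 1 := by
  have := padicNorm.nat_eq_one_iff (p := 2) 5
  rw [show ((5 : ℕ) : ℚ) = 5 by norm_num] at this
  rw [this]; norm_num

theorem norm_loop {n : ℕ} (i : Fin n) :
    padicNorm 2 (func (Pi.single i (1 : ℚ) + Pi.single i (1 : ℚ))) = 4 ^ (i : ℕ) / 2 := by
  rw [func_add, func_single, ← two_mul, padicNorm.mul, norm_two, norm_four_inv]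
  ring

theorem norm_edge {n : ℕ} (i j : Fin n) (hij : (j : ℕ) = i + 1) :
    padicNorm 2 (func (Pi.single i (1 : ℚ) + Pi.single j (1 : ℚ))) = 4 ^ ((i : ℕ) + 1) := by
  rw [func_add, func_single, func_single, hij]
  have : (1 : ℚ) / 4 ^ (i : ℕ) + 1 / 4 ^ ((i : ℕ) + 1) = 5 * (1 / 4 ^ ((i : ℕ) + 1)) := by
    rw [pow_succ]
    field_simp
    norm_num
  rw [this, padicNorm.mul, norm_five, norm_four_inv, one_mul]

/-- If `B₀ + B₁ ⊆ ℚ^n` contains all the vectors `e_i + e_j`, `i ≤ j`, then
`|B₀| + |B₁| ≥ 2n`. -/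
theorem result (n : ℕ) (hn : 1 ≤ n) (B₀ B₁ : Finset (Fin n → ℚ))
    (h : ∀ i j : Fin n, i ≤ j →
      ∃ b₀ ∈ B₀, ∃ b₁ ∈ B₁, b₀ + b₁ = Pi.single i 1 + Pi.single j 1) :
    2 * n ≤ B₀.card + B₁.card := by
  classical
  obtain ⟨W, hW⟩ : ∃ W, W = B₀.image func ∪ B₁.image (fun b => - func b) := ⟨_, rfl⟩
  have hWcard : W.card ≤ B₀.card + B₁.card := by
    rw [hW]
    exact (card_union_le _ _).trans (add_le_add card_image_le card_image_le)
  have hmem : ∀ i j : Fin n, i ≤ j →
      padicNorm 2 (func (Pi.single i (1 : ℚ) + Pi.single j (1 : ℚ))) ≠ 0 →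
      padicNorm 2 (func (Pi.single i (1 : ℚ) + Pi.single j (1 : ℚ))) ∈ dists W := by
    intro i j hij hne
    obtain ⟨b₀, h0, b₁, h1, hb⟩ := h i j hij
    rw [mem_dists]
    have heq : func b₀ - (- func b₁) = func (Pi.single i (1 : ℚ) + Pi.single j (1 : ℚ)) := by
      rw [← hb, func_add]; ring
    refine ⟨func b₀, ?_, - func b₁, ?_, ?_, by rw [heq]⟩
    · rw [hW]; exact mem_union_left _ (mem_image_of_mem _ h0)
    · rw [hW]; exact mem_union_right _ (mem_image_of_mem _ h1)
    · intro hcon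
      apply hne
      rw [← heq, hcon, sub_self, padicNorm.zero]
  have hWne : W.Nonempty := by
    obtain ⟨b₀, h0, -⟩ := h ⟨0, hn⟩ ⟨0, hn⟩ le_rfl
    exact ⟨func b₀, by rw [hW]; exact mem_union_left _ (mem_image_of_mem _ h0)⟩
  have hmain := card_dists W hWne
  -- the `2n - 1` distances
  have hsub : (range n).image (fun i : ℕ => (4 : ℚ) ^ i / 2) ∪
      (range (n - 1)).image (fun i : ℕ => (4 : ℚ) ^ (i + 1)) ⊆ dists W := by
    intro d hd
    rw [mem_union, mem_image, mem_image] at hd
    rcases hd with ⟨i, hi, rfl⟩ | ⟨i, hi, rfl⟩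
    · rw [mem_range] at hi
      have h1 := norm_loop (⟨i, hi⟩ : Fin n)
      have h2 := hmem ⟨i, hi⟩ ⟨i, hi⟩ le_rfl (by rw [h1]; positivity)
      rw [h1] at h2
      exact h2
    · rw [mem_range] at hi
      have h1 := norm_edge (⟨i, by omega⟩ : Fin n) ⟨i + 1, by omega⟩ rfl
      have h2 := hmem ⟨i, by omega⟩ ⟨i + 1, by omega⟩ (by
        rw [Fin.le_def]; exact Nat.le_succ i) (by rw [h1]; positivity)
      rw [h1] at h2
      exact h2
  have hdisj : Disjoint ((range n).image (fun i : ℕ => (4 : ℚ) ^ i / 2))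
      ((range (n - 1)).image (fun i : ℕ => (4 : ℚ) ^ (i + 1))) := by
    rw [disjoint_left]
    intro d h1 h2
    rw [mem_image] at h1 h2
    obtain ⟨i, -, rfl⟩ := h1
    obtain ⟨j, -, hj⟩ := h2
    have h3 : (4 : ℚ) ^ i = 2 * 4 ^ (j + 1) := by
      rw [hj]; ring
    have h4 : (4 : ℕ) ^ i = 2 * 4 ^ (j + 1) := by exact_mod_cast h3
    have h5 : (2 : ℕ) ^ (2 * i) = 2 ^ (2 * (j + 1) + 1) := by
      have e0 : (2 : ℕ) ^ 2 = 4 := by norm_num
      have e1 : (2 : ℕ) ^ (2 * i) = 4 ^ i := by rw [pow_mul, e0]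
      have e2 : (2 : ℕ) ^ (2 * (j + 1) + 1) = 2 * 4 ^ (j + 1) := by
        rw [pow_add, pow_mul, pow_one, mul_comm, e0]
      rw [e1, e2, h4]
    have h6 := Nat.pow_right_injective (le_refl 2) h5
    omega
  have hc1 : ((range n).image (fun i : ℕ => (4 : ℚ) ^ i / 2)).card = n := by
    rw [card_image_of_injective, card_range]
    intro i j hij
    have : (4 : ℚ) ^ i = 4 ^ j := by
      have h2 : (4 : ℚ) ^ i / 2 = 4 ^ j / 2 := hij
      linarith
    exact Nat.pow_right_injective (by norm_num : 2 ≤ 4) (by exact_mod_cast this)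
  have hc2 : ((range (n - 1)).image (fun i : ℕ => (4 : ℚ) ^ (i + 1))).card = n - 1 := by
    rw [card_image_of_injective, card_range]
    intro i j hij
    have h2 : (4 : ℚ) ^ (i + 1) = 4 ^ (j + 1) := hij
    have := Nat.pow_right_injective (by norm_num : 2 ≤ 4)
      (by exact_mod_cast h2 : (4 : ℕ) ^ (i + 1) = 4 ^ (j + 1))
    omega
  have h6 := card_le_card hsub
  rw [card_union_of_disjoint hdisj, hc1, hc2] at h6
  omega

end Pool.Agent.Results.MP_267066_co.TwoNBound
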